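import Pool.Agent.Lib.MP_275a7d_co.VertMain

/-!
MP_275a7d_co: edges `e = uv` with `Σ - v` balanced in exactly one negative chordless circle.
-/

namespace Pool.Agent.Results.MP_275a7d_co.BalancingVertex

open Pool.Agent.Lib.MP_275a7d_co

/-- Let `e = uv` be an edge of the finite signed simple graph `Γ` such that `Γ - v` is balanced.
For a neighbour `w ≠ u` of `v` let `Γ.only u v w` be `Γ` without the neighbours of `v` other than
`u` and `w`. Then `e` lies in exactly one negative chordless circle if and only if there is exactly
one neighbour `w ≠ u` of `v` such that `Γ.only u v w` is not balanced, and for this `w` there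
is in `Γ.only u v w` without `e` a path from `u` to `v` all of whose vertices lie on every walk from
`u` to `v`. -/
theorem result (V : Type) [Finite V] (Γ : SignedGraph V) (u v : V) (huv : Γ.graph.Adj u v)
    (hb : (Γ.deleteVerts {v}).Balanced) :
    Γ.hMinus s(u, v) = 1 ↔
      ∃ w, Γ.graph.Adj v w ∧ w ≠ u ∧ ¬ (Γ.only u v w).Balanced ∧
        (∀ w', Γ.graph.Adj v w' → w' ≠ u → w' ≠ w → (Γ.only u v w').Balanced) ∧
        ∃ p : ((Γ.only u v w).graph.deleteEdges {s(u, v)}).Walk u v, p.IsPath ∧
          ∀ x ∈ p.support, ∀ q : ((Γ.only u v w).graph.deleteEdges {s(u, v)}).Walk u v,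
            x ∈ q.support :=
  balancing_vertex Γ u v huv hb

end Pool.Agent.Results.MP_275a7d_co.BalancingVertex
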