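import Pool.Agent.Lib.MP_275a7d_co.SatMain

/-!
MP_275a7d_co: the number of negative chordless circles through an edge of a signed graph with one
negative edge counts satisfying assignments.
-/

namespace Pool.Agent.Results.MP_275a7d_co.SatReduction

open Pool.Agent.Lib.MP_275a7d_co

/-- For every formula `φ` in conjunctive normal form with `n` variables, `m` clauses and `L`
occurrences of literals, the edge `e` of the signed simple graph of `φ`, which has `6n + m + L + 3`
vertices and exactly one negative edge, different from `e`, lies in exactly as many negative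
chordless circles as `φ` has satisfying assignments. The formula `φ.plus` has one more satisfying
assignment, and its graph has `9n + 2m + L + 9` vertices; so its edge `e` lies in exactly one
negative chordless circle if and only if `φ` is not satisfiable. -/
theorem result (φ : CNF) :
    (φ.edge ∈ φ.signed.graph.edgeSet ∧ φ.signed.neg.ncard = 1 ∧ φ.edge ∉ φ.signed.neg) ∧
      φ.signed.hMinus φ.edge = φ.numSat ∧
      Nat.card (CNF.Vx φ) = 6 * φ.n + φ.m + φ.length + 3 ∧
      φ.plus.signed.hMinus φ.plus.edge = φ.numSat + 1 ∧
      Nat.card (CNF.Vx φ.plus) = 9 * φ.n + 2 * φ.m + φ.length + 9 ∧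
      (φ.plus.signed.hMinus φ.plus.edge = 1 ↔ ∀ a, ¬ φ.Sat a) := by
  refine ⟨⟨Or.inl (.pq _ _ ⟨rfl, rfl⟩), Set.ncard_singleton _, ?_⟩, φ.hMinus_signed, φ.card_vx, ?_, ?_, ?_⟩
  · intro h
    have h' : s(φ.pZero, φ.qZero) = s(φ.pLast, CNF.Vx.z) := h
    rw [Sym2.eq_iff] at h'
    rcases h' with ⟨-, h⟩ | ⟨h, -⟩
    · exact absurd h (by simp [CNF.qZero])
    · exact absurd h (by simp [CNF.pZero])
  · rw [φ.plus.hMinus_signed, φ.numSat_plus]
  · rw [φ.plus.card_vx, φ.length_plus]
    show 6 * (φ.n + 1) + (φ.m + φ.n) + _ + 3 = _
    ring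
  · rw [φ.plus.hMinus_signed, φ.numSat_plus]
    constructor
    · intro h a ha
      have h0 : φ.numSat = 0 := by omega
      unfold CNF.numSat at h0
      rw [Set.ncard_eq_zero] at h0
      have : a ∈ {a : Fin φ.n → Bool | φ.Sat a} := ha
      rw [h0] at this
      exact this
    · intro h
      have h0 : φ.numSat = 0 := by
        unfold CNF.numSat
        rw [Set.ncard_eq_zero]
        ext a
        simp only [Set.mem_ofPred_eq, Set.mem_empty_iff_false, iff_false]
        exact h a
      omega

end Pool.Agent.Results.MP_275a7d_co.SatReduction
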